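import Pool.Agent.BKW.Stmts

/-! Row EQP of squad BKW: the powers of `n`. -/

set_option autoImplicit false

namespace Pool.Agent.BKW.H28

open Finset Pool.Agent.BKW

theorem cast_pow_sub_one (n e : ℕ) (hn : 1 ≤ n) : ((n ^ e - 1 : ℕ) : ℤ) = (n : ℤ) ^ e - 1 := by
  rw [Nat.cast_sub (Nat.one_le_pow _ _ hn)]
  push_cast
  rfl

/-- no odd prime divides `e` -/
theorem odd_case (n e t : ℕ) (hn : 2 ≤ n) (ht : t.Prime) (hodd : Odd t) (hte : t ∣ e)
    (h : ∀ q : ℕ, q.Prime → q ∣ n ^ e - 1 → q ∣ n ^ 2 - 1) : False := by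
  obtain ⟨Q, hQ⟩ : ∃ Q : ℕ, Q = ∑ i ∈ range t, n ^ i := ⟨_, rfl⟩
  have hQz : (Q : ℤ) = ∑ i ∈ range t, (n : ℤ) ^ i := by rw [hQ]; push_cast; rfl
  have ht2 : 2 ≤ t := ht.two_le
  -- `Q > t`
  have hQt : t < Q := by
    rw [hQ]
    calc t = ∑ i ∈ range t, 1 := by simp
      _ < ∑ i ∈ range t, n ^ i := by
          refine Finset.sum_lt_sum (fun i _ => Nat.one_le_pow _ _ (by omega)) ⟨1, ?_, ?_⟩
          · rw [Finset.mem_range]; omega
          · rw [pow_one]; omega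
  -- prime factors of `Q`
  have key : ∀ q : ℕ, q.Prime → q ∣ Q → q = t ∧ (q : ℤ) ∣ (n : ℤ) - 1 := by
    intro q hq hqQ
    have : Fact q.Prime := ⟨hq⟩
    have h1 : (Q : ℤ) ∣ (n : ℤ) ^ t - 1 := by
      rw [hQz]
      exact ⟨_, (geom_sum_mul (n : ℤ) t).symm⟩
    have h2 : (n : ℤ) ^ t - 1 ∣ (n : ℤ) ^ e - 1 := by
      obtain ⟨d, rfl⟩ := hte
      have := sub_dvd_pow_sub_pow ((n : ℤ) ^ t) 1 d
      rwa [one_pow, ← pow_mul] at this
    have h3 : (q : ℤ) ∣ (n : ℤ) ^ e - 1 :=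
      ((Int.natCast_dvd_natCast.2 hqQ).trans h1).trans h2
    rw [← cast_pow_sub_one n e (by omega), Int.natCast_dvd_natCast] at h3
    have h4 := h q hq h3
    rw [← Int.natCast_dvd_natCast, cast_pow_sub_one n 2 (by omega)] at h4
    have h5 : (n : ℤ) ^ 2 - 1 = ((n : ℤ) - 1) * ((n : ℤ) + 1) := by ring
    rw [h5] at h4
    have h6 : ((Q : ℕ) : ZMod q) = 0 := (ZMod.natCast_eq_zero_iff _ _).2 hqQ
    have h7 : ((Q : ℕ) : ZMod q) = ∑ i ∈ range t, (n : ZMod q) ^ i := by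
      rw [hQ]; push_cast; rfl
    rcases (Nat.prime_iff_prime_int.1 hq).dvd_or_dvd h4 with h8 | h8
    · refine ⟨?_, h8⟩
      have h9 : (n : ZMod q) = 1 := by
        have := (ZMod.intCast_zmod_eq_zero_iff_dvd _ _).2 h8
        push_cast at this
        exact sub_eq_zero.1 this
      rw [h9] at h7
      simp only [one_pow, Finset.sum_const, Finset.card_range, nsmul_eq_mul, mul_one] at h7
      rw [h6] at h7
      have h10 : q ∣ t := (ZMod.natCast_eq_zero_iff _ _).1 h7.symm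
      exact (Nat.prime_dvd_prime_iff_eq hq ht).1 h10
    · exfalso
      have h9 : (n : ZMod q) = -1 := by
        have := (ZMod.intCast_zmod_eq_zero_iff_dvd _ _).2 h8
        push_cast at this
        exact eq_neg_of_add_eq_zero_left this
      rw [h9, neg_one_geom_sum, if_neg (Nat.not_even_iff_odd.2 hodd), h6] at h7
      exact zero_ne_one h7
  have hQ0 : Q ≠ 0 := by omega
  have hQk := Nat.eq_prime_pow_of_unique_prime_dvd (n := Q) (p := t) hQ0
    (fun {d} hd hdQ => (key d hd hdQ).1)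
  obtain ⟨k, hk⟩ : ∃ k : ℕ, k = Q.primeFactorsList.length := ⟨_, rfl⟩
  rw [← hk] at hQk
  have hk2 : 2 ≤ k := by
    by_contra hlt
    have h01 : k = 0 ∨ k = 1 := by omega
    rcases h01 with h0 | h0
    · rw [h0, pow_zero] at hQk
      omega
    · rw [h0, pow_one] at hQk
      omega
  have htQ : t ^ 2 ∣ Q := by
    rw [hQk]
    exact pow_dvd_pow t hk2
  have htn : (t : ℤ) ∣ (n : ℤ) - 1 := by
    have := (key t ht ((dvd_pow_self t (by norm_num)).trans htQ)).2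
    exact this
  obtain ⟨b, hb⟩ := htn
  have hnb : (n : ℤ) = 1 + t * b := by linarith
  have h11 := odd_sq_dvd_geom_sum₂_sub (R := ℤ) (a := 1) (b := b) hodd
  have h12 : ((t : ℤ)) ^ 2 ∣ (Q : ℤ) - t := by
    rw [hQz, hnb]
    simpa using h11
  have h13 : (t : ℤ) ^ 2 ∣ (Q : ℤ) := by exact_mod_cast htQ
  have h14 : (t : ℤ) ^ 2 ∣ (t : ℤ) := by
    have := dvd_sub h13 h12
    rwa [sub_sub_cancel] at this
  have h15 : t ^ 2 ∣ t := by exact_mod_cast h14
  have h16 := Nat.le_of_dvd (by omega) h15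
  nlinarith

/-- `4` does not divide `e` -/
theorem four_case (n e : ℕ) (hn : 2 ≤ n) (he : 4 ∣ e)
    (h : ∀ q : ℕ, q.Prime → q ∣ n ^ e - 1 → q ∣ n ^ 2 - 1) : False := by
  have key : ∀ q : ℕ, q.Prime → q ∣ n ^ 2 + 1 → q = 2 := by
    intro q hq hqn
    have h0 : (q : ℤ) ∣ (n : ℤ) ^ 2 + 1 := by exact_mod_cast hqn
    have h1 : (q : ℤ) ∣ (n : ℤ) ^ 4 - 1 := by
      have : (n : ℤ) ^ 4 - 1 = ((n : ℤ) ^ 2 + 1) * ((n : ℤ) ^ 2 - 1) := by ring
      rw [this]
      exact Dvd.dvd.mul_right h0 _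
    have h2 : (n : ℤ) ^ 4 - 1 ∣ (n : ℤ) ^ e - 1 := by
      obtain ⟨d, rfl⟩ := he
      have := sub_dvd_pow_sub_pow ((n : ℤ) ^ 4) 1 d
      rwa [one_pow, ← pow_mul] at this
    have h3 : (q : ℤ) ∣ (n : ℤ) ^ e - 1 := h1.trans h2
    rw [← cast_pow_sub_one n e (by omega), Int.natCast_dvd_natCast] at h3
    have h4 := h q hq h3
    rw [← Int.natCast_dvd_natCast, cast_pow_sub_one n 2 (by omega)] at h4
    have h5 : (q : ℤ) ∣ 2 := by
      have := dvd_sub h0 h4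
      have h6 : (n : ℤ) ^ 2 + 1 - ((n : ℤ) ^ 2 - 1) = 2 := by ring
      rwa [h6] at this
    have h7 : q ∣ 2 := by exact_mod_cast h5
    exact (Nat.prime_dvd_prime_iff_eq hq Nat.prime_two).1 h7
  have hk := Nat.eq_prime_pow_of_unique_prime_dvd (n := n ^ 2 + 1) (p := 2) (by omega)
    (fun {d} hd hdn => key d hd hdn)
  obtain ⟨k, hk'⟩ : ∃ k : ℕ, k = (n ^ 2 + 1).primeFactorsList.length := ⟨_, rfl⟩
  rw [← hk'] at hk
  have hn4 : 4 ≤ n ^ 2 := by nlinarith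
  have hk2 : 2 ≤ k := by
    by_contra hlt
    have h01 : k = 0 ∨ k = 1 := by omega
    rcases h01 with h0 | h0
    · rw [h0, pow_zero] at hk
      omega
    · rw [h0, pow_one] at hk
      omega
  have h4 : 4 ∣ n ^ 2 + 1 := by
    rw [hk]
    exact pow_dvd_pow 2 hk2
  obtain ⟨m, hm⟩ := Nat.even_or_odd' n
  rcases hm with hm | hm
  · rw [hm] at h4
    have : (2 * m) ^ 2 + 1 = 4 * m ^ 2 + 1 := by ring
    rw [this] at h4
    omega
  · rw [hm] at h4
    have : (2 * m + 1) ^ 2 + 1 = 4 * (m ^ 2 + m) + 2 := by ring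
    rw [this] at h4
    omega

theorem eqp : EqpStmt := by
  intro n e hn he h
  rcases Nat.eq_two_pow_or_exists_odd_prime_and_dvd e with ⟨k, hk⟩ | ⟨t, ht, hte, hodd⟩
  · by_contra hlt
    push Not at hlt
    have hk2 : 2 ≤ k := by
      by_contra hk2
      have h01 : k = 0 ∨ k = 1 := by omega
      rcases h01 with h0 | h0
      · rw [h0] at hk; omega
      · rw [h0] at hk; omega
    refine four_case n e hn ?_ h
    rw [hk]
    exact pow_dvd_pow 2 hk2
  · exact (odd_case n e t hn ht hodd hte h).elim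

end Pool.Agent.BKW.H28
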